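import Pool.Agent.H73.LPC.Stmts
import Pool.Agent.H70.PHS.SMO

/-!
# LPC, row FUL: limits of full rank
-/

set_option autoImplicit false

open Set Filter Topology MeasureTheory Metric

namespace Pool.LPC

open Pool.PHS

theorem FUL_thm (h1 : LIMStmt) (h2 : IDNStmt) (h3 : IT1Stmt) (h4 : SRJStmt) : FULStmt := by
  intro n D f g k z₁ hDo hDc hDb hf hk hconv hg hz₁ hjac
  let l : Ultrafilter ℕ := Filter.hyperfilter ℕ
  have hl : (l : Filter ℕ) ≤ atTop := by
    rw [← Nat.cofinite_eq_atTop]; exact Filter.hyperfilter_le_cofinite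
  have hmk : ∀ j, MapsTo (f^[j]) D D := fun j => hf.maps.iterate j
  have hit : ∀ j, DifferentiableOn ℂ (f^[j]) D := fun j => hf.hol.iterate hf.maps j
  have hmc : ∀ j, MapsTo (f^[j]) D (closure D) := fun j z hz => subset_closure (hmk j hz)
  obtain ⟨M, hM⟩ := hDb.exists_norm_le
  obtain ⟨hgd, -⟩ := h1 n D atTop (fun j => f^[k j]) g M inferInstance hDo (fun j => hit _)
    (fun j z hz => hM _ (hmk _ hz)) hconv
  obtain ⟨H, hHd, -, hHt⟩ := h3 n D l (fun j => f^[k (j + 1) - k j]) hDo hDb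
    (fun j => hit _) (fun j => hmc _)
  obtain ⟨P, hPd, -, hPt⟩ := h3 n D l (fun j => f^[k (j + 1) - k j - 1]) hDo hDb
    (fun j => hit _) (fun j => hmc _)
  have hb : ∀ z ∈ D, H (g z) = g z := by
    intro z hz
    have e1 : Tendsto (fun j => f^[k j] z) l (𝓝 (g z)) := (hconv z hz).mono_left hl
    have e2 : Tendsto (fun j => f^[k j] z) l (𝓝[D] (g z)) :=
      tendsto_nhdsWithin_iff.2 ⟨e1, Eventually.of_forall fun j => hmk _ hz⟩
    have e3 : Tendsto (fun j => f^[k (j + 1) - k j] (f^[k j] z)) l (𝓝 (H (g z))) :=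
      hHt.tendsto_comp (hHd.continuousOn (g z) (hg hz)) (hg hz) e2
    have e4 : Tendsto (fun j => f^[k (j + 1)] z) l (𝓝 (g z)) :=
      ((hconv z hz).comp (tendsto_add_atTop_nat 1)).mono_left hl
    refine tendsto_nhds_unique_of_eventuallyEq e3 e4 (Eventually.of_forall fun j => ?_)
    show f^[k (j + 1) - k j] (f^[k j] z) = f^[k (j + 1)] z
    rw [← Function.iterate_add_apply, Nat.sub_add_cancel (hk (Nat.lt_succ_self j)).le]
  have hst : HasStrictFDerivAt g (fderiv ℂ g z₁) z₁ :=
    ((((SMO_thm n (Cn n) g D hDo hgd).2.1).contDiffAt (hDo.mem_nhds hz₁))).hasStrictFDerivAt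
      (by norm_num)
  have hdet : (fderiv ℂ g z₁).det ≠ 0 := hjac
  have hmap : map g (𝓝 z₁) = 𝓝 (g z₁) :=
    HasStrictFDerivAt.map_nhds_eq_of_equiv
      (f' := ContinuousLinearMap.toContinuousLinearEquivOfDetNeZero (fderiv ℂ g z₁) hdet)
      (by simpa using hst)
  have hW : g '' D ∈ 𝓝 (g z₁) := by
    rw [← hmap]
    exact image_mem_map (hDo.mem_nhds hz₁)
  have hHid : ∀ z ∈ D, H z = z := by
    intro z hz
    ext i
    have e1 : DifferentiableOn ℂ (fun y : Cn n => H y i) D := by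
      intro y hy
      exact (differentiableWithinAt_pi.1 (hHd y hy)) i
    have e2 : DifferentiableOn ℂ (fun y : Cn n => y i) D := by
      intro y hy
      exact (differentiableWithinAt_pi.1 (differentiableWithinAt_id (x := y))) i
    refine h2 n (fun y => H y i) (fun y => y i) D (interior (g '' D)) hDo hDc.isPreconnected
      e1 e2 isOpen_interior ?_ ⟨g z₁, mem_interior_iff_mem_nhds.2 hW⟩ ?_ hz
    · rintro y hy
      obtain ⟨x, hx, rfl⟩ := interior_subset hy
      exact hg hx
    · intro y hy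
      obtain ⟨x, hx, rfl⟩ := interior_subset hy
      exact congrFun (hb x hx) i
  have hPf : ∀ z ∈ D, P (f z) = z := by
    intro z hz
    have e1 : Tendsto (fun j => f^[k (j + 1) - k j - 1] (f z)) l (𝓝 (P (f z))) :=
      hPt.tendsto_at (hf.maps hz)
    have e2 : Tendsto (fun j => f^[k (j + 1) - k j] z) l (𝓝 (H z)) := hHt.tendsto_at hz
    have e3 : P (f z) = H z := by
      refine tendsto_nhds_unique_of_eventuallyEq e1 e2 (Eventually.of_forall fun j => ?_)
      show f^[k (j + 1) - k j - 1] (f z) = f^[k (j + 1) - k j] z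
      have hlt : k j < k (j + 1) := hk (Nat.lt_succ_self j)
      have hmm : k (j + 1) - k j = (k (j + 1) - k j - 1) + 1 := by omega
      conv_rhs => rw [hmm]
      rw [Function.iterate_succ_apply]
    rw [e3, hHid z hz]
  have hsur := h4 n D f hDo hDc hf
  refine ⟨P, ?_, hPd, hPf, ?_⟩
  · intro w hw
    obtain ⟨z, hz, rfl⟩ := hsur hw
    rw [hPf z hz]
    exact hz
  · intro w hw
    obtain ⟨z, hz, rfl⟩ := hsur hw
    rw [hPf z hz]

end Pool.LPC
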